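import Pool.Agent.Lib.MP_c48ca6_an.Defs
import Pool.Agent.Lib.MP_c48ca6_an.Infinite

/-!
# MP_c48ca6_an: sets that are sharp in every direction

If the constant may depend on the unit vector, then in finite dimension the sharp closed convex
sets are exactly the polyhedral ones, while every infinite-dimensional real Hilbert space contains
a bounded closed convex set that is sharp with respect to every unit vector and is not polyhedral,
not even relative to a closed affine subspace.
-/

namespace Pool.Agent.Results.MP_c48ca6_an.DirectionwiseSharp

open Pool.Agent.Lib.MP_c48ca6_an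

theorem result :
    (∀ (H : Type) [NormedAddCommGroup H] [InnerProductSpace ℝ H] [FiniteDimensional ℝ H]
      (A : Set H), A.Nonempty → IsClosed A → Convex ℝ A →
        (SharpInEveryDirection A ↔ IsPolyhedral A)) ∧
    (∀ (H : Type) [NormedAddCommGroup H] [InnerProductSpace ℝ H] [CompleteSpace H],
      ¬ FiniteDimensional ℝ H →
        ∃ A : Set H, A.Nonempty ∧ IsClosed A ∧ Convex ℝ A ∧ Bornology.IsBounded A ∧
          SharpInEveryDirection A ∧ ¬ IsRelativelyPolyhedral A) := by
  refine ⟨?_, ?_⟩
  · intro H _ _ _ A hne hcl hcv
    exact ⟨isPolyhedral_of_sharp hne hcl hcv, sharp_of_isPolyhedral⟩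
  · intro H _ _ _ hinf
    exact exists_sharp_not_polyhedral hinf

end Pool.Agent.Results.MP_c48ca6_an.DirectionwiseSharp
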