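import Pool.Agent.Lib.MP_c48ca6_an.Defs
import Pool.Agent.Lib.MP_c48ca6_an.Uniform

/-!
# MP_c48ca6_an: classification of the uniformly sharp closed convex sets

With one constant for all unit vectors, the uniformly sharp nonempty closed convex subsets of a real
Hilbert space of dimension at least two are the whole space and the singletons. Hence the
uniformly sharp sets that are not polyhedral are exactly the singletons in infinite-dimensional
spaces.
-/

namespace Pool.Agent.Results.MP_c48ca6_an.UniformSharp

open Pool.Agent.Lib.MP_c48ca6_an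

theorem result :
    ∀ (H : Type) [NormedAddCommGroup H] [InnerProductSpace ℝ H] [CompleteSpace H] (A : Set H),
      A.Nonempty → IsClosed A → Convex ℝ A →
        (UniformlySharp A ↔ Module.rank ℝ H ≤ 1 ∨ A = Set.univ ∨ ∃ x, A = {x}) ∧
        (UniformlySharp A ∧ ¬ IsPolyhedral A ↔ ¬ FiniteDimensional ℝ H ∧ ∃ x, A = {x}) := by
  intro H _ _ _ A hne hcl hcv
  exact ⟨uniformlySharp_iff hne hcl hcv, uniformlySharp_and_not_polyhedral_iff hne hcl hcv⟩

end Pool.Agent.Results.MP_c48ca6_an.UniformSharp
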